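import Pool.Agent.Helper54.CG.Goals

set_option autoImplicit false

/-!
# Project CG (MP_c70db9_ag): packet TC
-/

namespace Pool.Agent.Helper79.CG.TC

open MvPolynomial Pool.Agent.Helper54.CG
open Pool.Agent.Helper16.Cusp (R V dd)

theorem eval_pull (v : V) (P : R) : eval v (pull P) = eval (phi v) P := by
  unfold pull phi
  rw [aeval_def, ← MvPolynomial.coe_eval₂Hom, ← RingHom.comp_apply]
  have h : (eval v).comp (eval₂Hom (algebraMap ℂ R) ff) = eval (fun i => eval v (ff i)) := by
    refine MvPolynomial.ringHom_ext (fun r => ?_) (fun i => ?_)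
    · simp [algebraMap_eq]
    · simp
  rw [h]

theorem dd_zero (P : R) (v : V) : dd P v (fun _ => 0) = 0 := by
  simp [dd]

theorem t (h1 : G_MR) (h2 : G_CH) (h3 : G_KER) : G_TC := by
  rintro F v ⟨E, α, b, β, hE, hE0, hM0, hb0, hα, hβ, u', hu1, hu2⟩ hR hM hg
  obtain ⟨⟨k, hk1, hk2⟩, hker⟩ := h3 v hR hM
  refine ⟨pull E, pull b, pR, pull β, 0, pM * pull α, ?_, ?_, ?_, hR, ?_, ?_, ⟨k, ?_, hk2⟩, ?_⟩
  · have h4 : pull E * pull F = pull pM * pull α + pull b ^ 2 * pull β := by
      have h5 : pull (E * F) = pull (pM * α + b ^ 2 * β) := by rw [hE]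
      unfold pull at h5 ⊢
      simpa only [map_mul, map_add, map_pow] using h5
    have h6 : pull pM = pM * pR ^ 3 := h1
    rw [h4, h6]
    ring
  · rw [eval_pull]
    exact hE0
  · rw [eval_pull]
    exact hb0
  · rw [eval_pull]
    exact hβ
  · rw [map_mul, eval_pull]
    exact mul_ne_zero hM hα
  · rw [h2]
    have h7 : (fun i => dd (ff i) v k) = fun _ => 0 := funext hk1
    rw [h7, dd_zero]
  · by_contra hc
    push Not at hc
    obtain ⟨l, hl⟩ := hker hg b (fun u => by rw [← h2]; exact hc u)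
    apply hu2
    rw [hl u', hu1, mul_zero]

end Pool.Agent.Helper79.CG.TC
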